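import Pool.Agent.H159.EW.Defs

set_option autoImplicit false
set_option linter.all false

namespace Pool.Agent.Q65.EWm

open MeasureTheory MeasureTheory.Measure Set Real
open scoped RealInnerProductSpace

abbrev E := EuclideanSpace ℝ (Fin 8)

theorem polar (F : E → ℝ) :
    ∫ x, F x ∂(volume : Measure E) = ∫ p, F ((p.2 : ℝ) • (p.1 : E))
      ∂((volume : Measure E).toSphere.prod (volumeIoiPow 7)) := by
  have hdim : Module.finrank ℝ E - 1 = 7 := by
    rw [finrank_euclideanSpace_fin]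
  have h1 : ∫ x, F x ∂(volume : Measure E) =
      ∫ x : ({(0)}ᶜ : Set E), F x.1 ∂((volume : Measure E).comap (↑)) := by
    rw [integral_subtype_comap (measurableSet_singleton _).compl fun x ↦ F x,
      restrict_compl_singleton]
  rw [h1]
  have h2 := (volume : Measure E).measurePreserving_homeomorphUnitSphereProd.integral_comp
    (Homeomorph.measurableEmbedding _)
    (fun p : (Metric.sphere (0 : E) 1) × (Ioi (0 : ℝ)) => F ((p.2 : ℝ) • (p.1 : E)))
  rw [hdim] at h2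
  rw [← h2]
  refine integral_congr_ae (Filter.Eventually.of_forall fun x => ?_)
  have hx : (x : E) ≠ 0 := x.2
  simp [hx, smul_smul]

theorem ipow (n : ℕ) (f : ℝ → ℝ) :
    ∫ x : Ioi (0 : ℝ), f x ∂(volumeIoiPow n) = ∫ y in Ioi (0 : ℝ), y ^ n * f y := by
  simp only [Measure.volumeIoiPow, ENNReal.ofReal]
  rw [integral_withDensity_eq_integral_smul,
    integral_subtype_comap measurableSet_Ioi fun a ↦ Real.toNNReal (a ^ n) • f a,
    setIntegral_congr_fun measurableSet_Ioi fun x hx ↦ ?_]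
  · rw [NNReal.smul_def, Real.coe_toNNReal _ (pow_nonneg hx.out.le _), smul_eq_mul]
  · exact (measurable_subtype_coe.pow_const _).real_toNNReal

theorem gam (n : ℕ) : ∫ y in Ioi (0 : ℝ), y ^ n * Real.exp (- y ^ 2) =
    (1 / 2) * Real.Gamma ((n + 1) / 2) := by
  have h := integral_rpow_mul_exp_neg_rpow (p := 2) (q := n) (by norm_num)
    (by have : (0 : ℝ) ≤ n := Nat.cast_nonneg n
        linarith)
  rw [← h]
  refine setIntegral_congr_fun measurableSet_Ioi fun x hx ↦ ?_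
  simp only [Real.rpow_natCast]
  congr 2
  norm_cast

theorem gam8 : ∫ y in Ioi (0 : ℝ), y ^ 7 * (y ^ 8 * Real.exp (- y ^ 2)) = 2520 := by
  have h : ∀ y : ℝ, y ^ 7 * (y ^ 8 * Real.exp (- y ^ 2)) = y ^ 15 * Real.exp (- y ^ 2) := by
    intro y; ring
  simp only [h]
  rw [gam]
  have : ((15 : ℕ) + 1 : ℝ) / 2 = (7 : ℕ) + 1 := by norm_num
  rw [this, Real.Gamma_nat_eq_factorial]
  norm_num [Nat.factorial]

theorem gam4 : ∫ y in Ioi (0 : ℝ), y ^ 7 * Real.exp (- y ^ 2) = 3 := by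
  rw [gam]
  have : ((7 : ℕ) + 1 : ℝ) / 2 = (3 : ℕ) + 1 := by norm_num
  rw [this, Real.Gamma_nat_eq_factorial]
  norm_num [Nat.factorial]

theorem even8 : ∫ y : ℝ, y ^ 8 * Real.exp (- y ^ 2) = 105 / 16 * Real.sqrt Real.pi := by
  have h1 : ∫ y : ℝ, y ^ 8 * Real.exp (- y ^ 2) =
      ∫ y : ℝ, (fun z : ℝ => z ^ 8 * Real.exp (- z ^ 2)) |y| := by
    refine integral_congr_ae (Filter.Eventually.of_forall fun y => ?_)
    simp only
    rw [sq_abs, show |y| ^ 8 = y ^ 8 by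
      rw [← abs_pow]; exact abs_of_nonneg (by positivity)]
  rw [h1]
  have h2 := integral_comp_abs (f := fun z : ℝ => z ^ 8 * Real.exp (- z ^ 2))
  rw [h2]
  rw [gam]
  have : ((8 : ℕ) + 1 : ℝ) / 2 = (4 : ℕ) + 1 / 2 := by norm_num
  rw [this, Real.Gamma_nat_add_half]
  norm_num [Nat.doubleFactorial]
  ring

theorem gau : ∫ y : ℝ, Real.exp (- y ^ 2) = Real.sqrt Real.pi := by
  have h := integral_gaussian 1
  simpa using h

theorem sqrt_pi_pow : Real.sqrt Real.pi ^ 8 = Real.pi ^ 4 := by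
  have : Real.sqrt Real.pi ^ 8 = (Real.sqrt Real.pi ^ 2) ^ 4 := by ring
  rw [this, Real.sq_sqrt Real.pi_pos.le]

theorem toPi (G : (Fin 8 → ℝ) → ℝ) :
    ∫ x, G (fun i => x i) ∂(volume : Measure E) = ∫ x : Fin 8 → ℝ, G x := by
  exact (EuclideanSpace.volume_preserving_symm_measurableEquiv_toLp (Fin 8)).integral_comp' G

theorem norm_sq' (x : E) : ‖x‖ ^ 2 = ∑ i, x i ^ 2 := by
  rw [EuclideanSpace.norm_eq, Real.sq_sqrt (Finset.sum_nonneg fun i _ => by positivity)]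
  exact Finset.sum_congr rfl fun i _ => by rw [Real.norm_eq_abs, sq_abs]

theorem tot : ∫ x, Real.exp (- ‖x‖ ^ 2) ∂(volume : Measure E) = Real.pi ^ 4 := by
  simp only [norm_sq']
  rw [toPi (fun x => Real.exp (- ∑ i, x i ^ 2))]
  have h : ∀ x : Fin 8 → ℝ, Real.exp (- ∑ i, x i ^ 2) = ∏ i, Real.exp (- (x i) ^ 2) := by
    intro x
    rw [← Real.exp_sum, Finset.sum_neg_distrib]
  simp only [h]
  rw [integral_fintype_prod_volume_eq_pow (fun y : ℝ => Real.exp (- y ^ 2)), gau,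
    Fintype.card_fin, sqrt_pi_pow]

theorem one_coord : ∫ x : E, (x 0) ^ 8 * Real.exp (- ‖x‖ ^ 2) ∂(volume : Measure E) =
    105 / 16 * Real.pi ^ 4 := by
  simp only [norm_sq']
  rw [toPi (fun x => (x 0) ^ 8 * Real.exp (- ∑ i, x i ^ 2))]
  have h : ∀ x : Fin 8 → ℝ, (x 0) ^ 8 * Real.exp (- ∑ i, x i ^ 2) =
      ∏ i, (fun (i : Fin 8) (y : ℝ) => (if i = 0 then y ^ 8 else 1) * Real.exp (- y ^ 2)) i (x i) := by
    intro x
    simp only
    rw [Finset.prod_mul_distrib, ← Real.exp_sum, Finset.sum_neg_distrib]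
    congr 1
    simp [Finset.prod_ite_eq']
  simp only [h]
  rw [integral_fintype_prod_volume_eq_prod
    (fun (i : Fin 8) (y : ℝ) => (if i = 0 then y ^ 8 else 1) * Real.exp (- y ^ 2))]
  rw [Fin.prod_univ_succ]
  simp only [if_true, Fin.succ_ne_zero, if_false, one_mul, gau, even8, Finset.prod_const,
    Finset.card_univ, Fintype.card_fin]
  rw [← sqrt_pi_pow]
  ring

theorem lin (y : E) : ∫ x : E, (⟪y, x⟫) ^ 8 * Real.exp (- ‖x‖ ^ 2) ∂(volume : Measure E) =
    ‖y‖ ^ 8 * (105 / 16 * Real.pi ^ 4) := by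
  by_cases hy : y = 0
  · subst hy
    simp
  · have hn : ‖y‖ ≠ 0 := norm_ne_zero_iff.mpr hy
    set v : E := ‖y‖⁻¹ • y with hv
    have hv1 : ‖v‖ = 1 := by
      rw [hv, norm_smul, norm_inv, norm_norm, inv_mul_cancel₀ hn]
    have hyv : y = ‖y‖ • v := by
      rw [hv, smul_smul, mul_inv_cancel₀ hn, one_smul]
    obtain ⟨b, hb⟩ := Orthonormal.exists_orthonormalBasis_extension_of_card_eq (𝕜 := ℝ) (E := E)
      (ι := Fin 8) (by simp) (v := fun _ => v) (s := {0})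
      (by
        constructor
        · intro i; exact hv1
        · intro i j hij
          exact absurd (Subsingleton.elim i j) hij)
    have hb0 : b 0 = v := hb 0 rfl
    have h1 : ∀ x : E, (⟪y, x⟫) ^ 8 * Real.exp (- ‖x‖ ^ 2) =
        ‖y‖ ^ 8 * ((b.repr x 0) ^ 8 * Real.exp (- ‖b.repr x‖ ^ 2)) := by
      intro x
      rw [b.repr.norm_map, b.repr_apply_apply, hb0]
      conv_lhs => rw [hyv, real_inner_smul_left]
      ring
    simp only [h1]
    rw [integral_const_mul]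
    congr 1
    have h2 := b.repr.measurePreserving.integral_comp b.repr.toHomeomorph.measurableEmbedding
      (fun x : E => (x 0) ^ 8 * Real.exp (- ‖x‖ ^ 2))
    rw [h2, one_coord]

theorem ok_mom : Pool.Agent.H159.EW.S_mom := by
  intro y
  set S := ∫ u, (∑ i, y i * (u : E) i) ^ 8 ∂((volume : Measure E).toSphere) with hS
  set y' : E := WithLp.toLp 2 y with hy'
  have hin : ∀ x : E, ⟪y', x⟫ = ∑ i, y i * x i := by
    intro x
    rw [PiLp.inner_apply]
    refine Finset.sum_congr rfl fun i _ => ?_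
    rw [real_inner_comm]
    simp [hy']
    try ring
  have hny : ‖y'‖ ^ 8 = (∑ i, y i ^ 2) ^ 4 := by
    have : ‖y'‖ ^ 8 = (‖y'‖ ^ 2) ^ 4 := by ring
    rw [this, norm_sq']
  have hsph : ∀ u : Metric.sphere (0 : E) 1, ‖(u : E)‖ = 1 := fun u => by
    simpa using u.2
  have h1 := lin y'
  rw [polar] at h1
  have h2 : ∫ p, (⟪y', ((p.2 : ℝ) • (p.1 : E))⟫) ^ 8 * Real.exp (- ‖((p.2 : ℝ) • (p.1 : E))‖ ^ 2)
      ∂((volume : Measure E).toSphere.prod (volumeIoiPow 7)) = S * 2520 := by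
    have h3 : ∀ p : Metric.sphere (0 : E) 1 × Ioi (0 : ℝ),
        (⟪y', ((p.2 : ℝ) • (p.1 : E))⟫) ^ 8 * Real.exp (- ‖((p.2 : ℝ) • (p.1 : E))‖ ^ 2) =
        (∑ i, y i * (p.1 : E) i) ^ 8 * ((p.2 : ℝ) ^ 8 * Real.exp (- (p.2 : ℝ) ^ 2)) := by
      intro p
      have hp : 0 < (p.2 : ℝ) := p.2.2
      rw [real_inner_smul_right, hin, norm_smul, hsph, mul_one, Real.norm_eq_abs, sq_abs]
      ring
    simp only [h3]
    have h4 := integral_prod_mul (μ := (volume : Measure E).toSphere) (ν := volumeIoiPow 7)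
      (fun u : Metric.sphere (0 : E) 1 => (∑ i, y i * (u : E) i) ^ 8)
      (fun r : Ioi (0 : ℝ) => ((r : ℝ) ^ 8 * Real.exp (- (r : ℝ) ^ 2)))
    rw [h4, ipow 7 (fun r => r ^ 8 * Real.exp (- r ^ 2)), gam8]
  rw [h2] at h1
  have h5 := tot
  rw [polar] at h5
  have h6 : ∫ p, Real.exp (- ‖((p.2 : ℝ) • (p.1 : E))‖ ^ 2)
      ∂((volume : Measure E).toSphere.prod (volumeIoiPow 7)) =
      ((volume : Measure E).toSphere Set.univ).toReal * 3 := by
    have h3 : ∀ p : Metric.sphere (0 : E) 1 × Ioi (0 : ℝ),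
        Real.exp (- ‖((p.2 : ℝ) • (p.1 : E))‖ ^ 2) =
        (1 : ℝ) * (Real.exp (- (p.2 : ℝ) ^ 2)) := by
      intro p
      have hp : 0 < (p.2 : ℝ) := p.2.2
      rw [norm_smul, hsph, mul_one, Real.norm_eq_abs, sq_abs, one_mul]
    simp only [h3]
    have h4 := integral_prod_mul (μ := (volume : Measure E).toSphere) (ν := volumeIoiPow 7)
      (fun u : Metric.sphere (0 : E) 1 => (1 : ℝ))
      (fun r : Ioi (0 : ℝ) => (Real.exp (- (r : ℝ) ^ 2)))
    rw [h4, ipow 7 (fun r => Real.exp (- r ^ 2)), gam4]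
    simp [Measure.real]
  rw [h6] at h5
  rw [hny] at h1
  rw [← h5] at h1
  linarith

end Pool.Agent.Q65.EWm
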